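import Pool.Agent.LF.Main

open Set Filter Topology
open scoped ContDiff
open Pool.Agent.LF

namespace Pool.Agent.Results.MP_639418_gt.NoFibration

/-- There are a Liouville manifold `X` (of dimension 6) admitting a Lefschetz fibration over `ℂ`
and a Liouville hypersurface of its ideal boundary which is not a Liouville subdomain
of the fibre of any Lefschetz fibration on `X`. -/
theorem result : ∃ X : Liouville (Fin 6 → ℝ) 3, (∃ pi, IsLefschetz X pi) ∧
    ∃ (C : Set (Fin 6 → ℝ)) (h : (Fin 6 → ℝ) → ℝ), IsLiouvilleHypersurface X C h ∧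
      ∀ pi, IsLefschetz X pi → ¬ IsFibreSubdomain X pi C h :=
  ⟨X6, ⟨pi6, lefschetz6⟩, C6, h6, hypersurface6, fun _ hp hF => no_fibration hp hF⟩

end Pool.Agent.Results.MP_639418_gt.NoFibration
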